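import Pool.Agent.X264.ES.Level

/-!
# Abelian varieties attached to Hilbert newforms: reduction to level one
-/

set_option autoImplicit false

open Pool.Agent.X264.ES

namespace Pool.Agent.Results.MP_6cbef8_nt.LevelOne

universe u

/-- **Reduction to level one.** The assertion of Q1 for all totally real fields `F` of even degree and
all newforms `f` whose level has even exponents follows from the case of level `(1)`, and there one may
assume that `F` contains a given totally real field `L₀`, Galois over `ℚ` with solvable group. -/
theorem result {Ω : Type u} [Field Ω] (W : Fields Ω) (hW : W.IsKnown) :
    (∀ F f, W.even F → W.cond F f → (W.sys F).HasVariety f) ↔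
      ∀ F f, W.even F → W.above F → W.one F f → (W.sys F).HasVariety f :=
  Fields.level_variety hW

end Pool.Agent.Results.MP_6cbef8_nt.LevelOne
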