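import Pool.Agent.X264.ES.Main

/-!
# The abelian variety of a Hilbert newform exists iff it exists potentially
-/

set_option autoImplicit false

open Pool.Agent.X264.ES

namespace Pool.Agent.Results.MP_6cbef8_nt.PotentialAbelianVarieties

universe u

/-- **Potential existence suffices.** Let `F` be a totally real field and `f` a newform over `F` of
parallel weight 2 with trivial central character. There is a simple abelian variety `A` over `F` with
`L(A, s) = ∏ L(f^τ, s)` if and only if there are a number field `F' ⊇ F` (not necessarily totally real,
Galois or solvable over `F`), an abelian variety `B` over `F'` and a nonzero `G_(F')`-equivariant map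
`ρ_(f,τ) → V_ℓ(B) ⊗ ℚ̄_ℓ` for some `τ`. -/
theorem result {Ω : Type u} [Field Ω] (S : Sys Ω) (hS : S.IsKnown) (f : S.Form) :
    S.HasVariety f ↔ S.PotentiallyOccurs f :=
  Sys.main hS f

end Pool.Agent.Results.MP_6cbef8_nt.PotentialAbelianVarieties
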